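import Mathlib
import Pool.Agent.H1.SMP

open MeasureTheory Set Finset

namespace Pool.Agent.Results.MP_1d8377_an.Counterexample
open Pool.Agent.H1.SMP
noncomputable section

def f (x : ℝ) : ℝ := w x * w (1 - x)
def f1 (x : ℝ) : ℝ := G x * w (1 - x) - w x * G (1 - x)
def f2 (x : ℝ) : ℝ := g x * w (1 - x) - 2 * (G x * G (1 - x)) + w x * g (1 - x)
def F (x : ℝ) : ℝ := W x + W (1 - x)
def H (x : ℝ) : ℝ := g x * w (1 - x) + w x * g (1 - x)
def ind (x : ℝ) : ℝ := (Icc (0 : ℝ) 1).indicator 1 x

theorem flip_der {a : ℝ → ℝ} {a' : ℝ} {x : ℝ} (h : HasDerivAt a a' (1 - x)) :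
    HasDerivAt (fun y => a (1 - y)) (-a') x := by
  exact (h.comp x ((hasDerivAt_id x).const_sub 1)).congr_deriv (by simp)

theorem f_der (x : ℝ) : HasDerivAt f (f1 x) x := by
  have := (w_der x).mul (flip_der (w_der (1 - x)))
  exact this.congr_deriv (by unfold f1; ring)

theorem f1_der (x : ℝ) : HasDerivAt f1 (f2 x) x := by
  have := ((G_der x).mul (flip_der (w_der (1 - x)))).sub ((w_der x).mul (flip_der (G_der (1 - x))))
  exact this.congr_deriv (by unfold f2; ring)

theorem w_cont : Continuous w := w_diff.continuous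
theorem G_cont : Continuous G := G_diff.continuous

theorem f_cont : Continuous f := by
  have := w_cont; unfold f; fun_prop
theorem f1_cont : Continuous f1 := by
  have := w_cont; have := G_cont; unfold f1; fun_prop
theorem f2_cont : Continuous f2 := by
  have := w_cont; have := G_cont; have := g_cont; unfold f2; fun_prop
theorem H_cont : Continuous H := by
  have := w_cont; have := g_cont; unfold H; fun_prop

theorem f_nonneg (x : ℝ) : 0 ≤ f x := mul_nonneg (w_nonneg _) (w_nonneg _)
theorem F_nonneg (x : ℝ) : 0 ≤ F x := add_nonneg (W_nonneg _) (W_nonneg _)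

theorem F_mul (x : ℝ) : F x * f x = H x := by
  unfold F f H
  rw [← W_mul x, ← W_mul (1 - x)]; ring

theorem f2_le (x : ℝ) : f2 x ≤ H x := by
  unfold f2 H
  nlinarith [mul_nonneg (G_nonneg x) (G_nonneg (1 - x))]

theorem f_zero {x : ℝ} (h : x ∉ Icc (0 : ℝ) 1) : f x = 0 := by
  unfold f
  rw [Set.mem_Icc, not_and_or] at h
  rcases h with h | h
  · rw [w_zero (x := x) (by linarith), zero_mul]
  · rw [w_zero (x := 1 - x) (by linarith), mul_zero]

theorem ind_mul (x : ℝ) : ind x * f x = f x := by
  unfold ind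
  by_cases h : x ∈ Icc (0 : ℝ) 1
  · simp [h]
  · simp [f_zero h]

theorem ind_cases (x : ℝ) : ind x = 0 ∨ ind x = 1 := by
  unfold ind
  by_cases h : x ∈ Icc (0 : ℝ) 1 <;> simp [h]

theorem ind_meas : Measurable ind := measurable_const.indicator measurableSet_Icc

theorem ind_int : Integrable ind :=
  (integrable_indicator_iff measurableSet_Icc).2 (integrableOn_const (by simp))

theorem F_meas : Measurable F := W_meas.add (W_meas.comp (by fun_prop))

theorem F_int {q : ℝ} (h0 : 0 < q) (hq : q < 1) : Integrable fun x => F x ^ q * ind x := by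
  have h1 := (W_int h0 hq).add ((W_int h0 hq).comp_sub_left 1)
  refine h1.mono' ((F_meas.pow_const q).mul ind_meas).aestronglyMeasurable
    (Filter.Eventually.of_forall fun x => ?_)
  have h2 : F x ^ q ≤ W x ^ q + W (1 - x) ^ q :=
    Real.rpow_add_le_add_rpow (W_nonneg _) (W_nonneg _) h0.le hq.le
  have h3 := Real.rpow_nonneg (F_nonneg x) q
  rcases ind_cases x with h | h <;> simp only [h, Pi.add_apply, mul_zero, mul_one, norm_zero]
  · linarith
  · rwa [Real.norm_of_nonneg h3]

theorem rpow_sum_le {ι : Type} (s : Finset ι) (a : ι → ℝ) (ha : ∀ i, 0 ≤ a i) {q : ℝ}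
    (h0 : 0 < q) (hq : q ≤ 1) : (∑ i ∈ s, a i) ^ q ≤ ∑ i ∈ s, a i ^ q := by
  classical
  induction s using Finset.induction_on with
  | empty => simp [Real.zero_rpow h0.ne']
  | insert i s hi ih =>
    rw [Finset.sum_insert hi, Finset.sum_insert hi]
    exact (Real.rpow_add_le_add_rpow (ha i) (Finset.sum_nonneg fun j _ => ha j) h0.le hq).trans
      (by linarith)

variable {N : ℕ}

abbrev E (N : ℕ) := EuclideanSpace ℝ (Fin N)

def P (i : Fin N) (x : E N) : ℝ := ∏ j ∈ univ.erase i, f (x j)
def u (x : E N) : ℝ := ∏ j, f (x j)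
def chi (x : E N) : ℝ := ∏ j, ind (x j)
def V (x : E N) : ℝ := (∑ i, F (x i)) * chi x

theorem u_eq (i : Fin N) (x : E N) : u x = f (x i) * P i x :=
  (Finset.mul_prod_erase univ (fun j => f (x j)) (Finset.mem_univ i)).symm

theorem P_nonneg (i : Fin N) (x : E N) : 0 ≤ P i x := Finset.prod_nonneg fun _ _ => f_nonneg _

theorem P_diff (i : Fin N) : Differentiable ℝ (P i) := by
  have : Differentiable ℝ f := fun x => (f_der x).differentiableAt
  unfold P; fun_prop

theorem u_cont : Continuous (u : E N → ℝ) := by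
  have := f_cont; unfold u; fun_prop

theorem u_supp : HasCompactSupport (u : E N → ℝ) := by
  refine HasCompactSupport.intro (isCompact_closedBall (0 : E N) (√N)) fun x hx => ?_
  by_contra h
  apply hx
  rw [mem_closedBall_zero_iff, EuclideanSpace.norm_eq]
  refine Real.sqrt_le_sqrt ?_
  have h1 : ∀ j, ‖x j‖ ^ 2 ≤ 1 := fun j => by
    have : x j ∈ Icc (0 : ℝ) 1 := by
      by_contra hj
      exact h (Finset.prod_eq_zero (Finset.mem_univ j) (f_zero hj))
    rw [Real.norm_of_nonneg this.1]; nlinarith [this.1, this.2]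
  simpa using Finset.sum_le_sum fun j (_ : j ∈ Finset.univ) => h1 j

theorem Vu_eq (x : E N) : V x * u x = ∑ i, H (x i) * P i x := by
  have h : chi x * u x = u x := by
    unfold chi u
    rw [← Finset.prod_mul_distrib]
    exact Finset.prod_congr rfl fun j _ => ind_mul _
  unfold V
  rw [mul_assoc, h, Finset.sum_mul]
  exact Finset.sum_congr rfl fun i _ => by rw [u_eq i, ← mul_assoc, F_mul]

theorem dir {a a' : ℝ → ℝ} (ha : ∀ t, HasDerivAt a (a' t) t) (i : Fin N) :
    Differentiable ℝ (fun x : E N => a (x i) * P i x) ∧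
      ∀ x : E N, fderiv ℝ (fun x : E N => a (x i) * P i x) x (EuclideanSpace.single i 1) =
        a' (x i) * P i x := by
  have h0 : Differentiable ℝ a := fun x => (ha x).differentiableAt
  have h1 : Differentiable ℝ (fun x : E N => a (x i) * P i x) := by
    have := P_diff i; fun_prop
  refine ⟨h1, fun x => ?_⟩
  rw [← (h1 x).lineDeriv_eq_fderiv]
  unfold lineDeriv
  have e : (fun t : ℝ => a ((x + t • EuclideanSpace.single i (1 : ℝ) : E N) i) *
      P i (x + t • EuclideanSpace.single i (1 : ℝ))) = fun t => a (x i + t) * P i x := by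
    funext t
    congr 1
    · simp
    · refine Finset.prod_congr rfl fun j hj => ?_
      simp [Finset.ne_of_mem_erase hj]
  rw [e]
  have h2 : HasDerivAt (fun t : ℝ => a (x i + t)) (a' (x i)) 0 := by
    have := (ha (x i + 0)).comp (0 : ℝ) ((hasDerivAt_id (0 : ℝ)).const_add (x i))
    exact this.congr_deriv (by simp)
  exact (h2.mul_const _).deriv

theorem ibp {a a' : ℝ → ℝ} (ha : ∀ t, HasDerivAt a (a' t) t) (hc : Continuous a') (i : Fin N)
    {φ : E N → ℝ} (hφ : ContDiff ℝ 1 φ) (hs : HasCompactSupport φ) :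
    ∫ x : E N, a (x i) * P i x * fderiv ℝ φ x (EuclideanSpace.single i 1) =
      - ∫ x : E N, a' (x i) * P i x * φ x := by
  obtain ⟨h1, h2⟩ := dir ha i
  have hP := (P_diff i).continuous
  have hφc := hφ.continuous
  have hφ' : Continuous fun x => fderiv ℝ φ x (EuclideanSpace.single i 1) :=
    (hφ.continuous_fderiv one_ne_zero).clm_apply continuous_const
  rw [integral_mul_fderiv_eq_neg_fderiv_mul_of_integrable (f := fun x : E N => a (x i) * P i x)
    (g := φ) ?_ ?_ ?_ (fun x _ => h1 x) (fun x _ => hφ.differentiable one_ne_zero x)]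
  · simp_rw [h2]
  · simp_rw [h2]
    exact Continuous.integrable_of_hasCompactSupport (by fun_prop) hs.mul_left
  · exact (h1.continuous.mul hφ').integrable_of_hasCompactSupport
      (hs.fderiv_apply ℝ _).mul_left
  · exact (h1.continuous.mul hφc).integrable_of_hasCompactSupport hs.mul_left

theorem ibp2 (i : Fin N) {φ : E N → ℝ} (hφ : ContDiff ℝ 2 φ) (hs : HasCompactSupport φ) :
    Integrable (fun x : E N => u x * iteratedFDeriv ℝ 2 φ x
      ![EuclideanSpace.single i 1, EuclideanSpace.single i 1]) ∧
    ∫ x : E N, u x * iteratedFDeriv ℝ 2 φ x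
      ![EuclideanSpace.single i 1, EuclideanSpace.single i 1] =
      ∫ x : E N, f2 (x i) * P i x * φ x := by
  have h1 : ContDiff ℝ 1 (fderiv ℝ φ) := hφ.fderiv_right (by norm_num)
  have h2 : ContDiff ℝ 1 fun x => fderiv ℝ φ x (EuclideanSpace.single i 1) :=
    h1.clm_apply contDiff_const
  have e : ∀ x : E N, iteratedFDeriv ℝ 2 φ x
      ![EuclideanSpace.single i 1, EuclideanSpace.single i 1] =
      fderiv ℝ (fun x => fderiv ℝ φ x (EuclideanSpace.single i 1)) x
        (EuclideanSpace.single i 1) := by
    intro x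
    rw [iteratedFDeriv_two_apply, fderiv_clm_apply (h1.differentiable one_ne_zero x)
      (differentiableAt_const _)]
    simp
  simp_rw [e]
  constructor
  · exact (u_cont.mul ((h2.continuous_fderiv one_ne_zero).clm_apply
      continuous_const)).integrable_of_hasCompactSupport u_supp.mul_right
  · simp_rw [u_eq i]
    rw [ibp f_der f1_cont i h2 (hs.fderiv_apply ℝ _),
      ibp f1_der f2_cont i (hφ.of_le (by norm_num)) hs, neg_neg]

theorem V_meas : Measurable (V : E N → ℝ) := by
  have := F_meas; have := ind_meas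
  unfold V chi; fun_prop

theorem chi_cases (x : E N) : chi x = 0 ∨ chi x = 1 := by
  by_cases h : ∀ j, ind (x j) = 1
  · right; simp [chi, h]
  · left
    push Not at h
    obtain ⟨j, hj⟩ := h
    exact Finset.prod_eq_zero (Finset.mem_univ j) ((ind_cases _).resolve_right hj)

theorem V_nonneg (x : E N) : 0 ≤ V x := by
  unfold V
  rcases chi_cases x with h | h <;> simp [h, Finset.sum_nonneg fun i _ => F_nonneg (x i)]

theorem V_int {q : ℝ} (h0 : 0 < q) (hq : q < 1) : Integrable fun x : E N => V x ^ q := by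
  have h1 : ∀ i : Fin N, Integrable fun x : E N => F (x i) ^ q * chi x := by
    intro i
    have h2 : Integrable (fun x : Fin N → ℝ =>
        ∏ j, (if j = i then fun t => F t ^ q * ind t else ind) (x j)) :=
      Integrable.fintype_prod (f := fun j => if j = i then fun t => F t ^ q * ind t else ind)
        fun j => by
          split_ifs
          · exact F_int h0 hq
          · exact ind_int
    have h3 := (PiLp.volume_preserving_ofLp (Fin N)).integrable_comp_of_integrable h2
    refine h3.congr (Filter.Eventually.of_forall fun x => ?_)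
    simp only [Function.comp, chi]
    rw [← Finset.mul_prod_erase univ _ (Finset.mem_univ i),
      ← Finset.mul_prod_erase univ (fun j => ind (x j)) (Finset.mem_univ i), if_pos rfl, mul_assoc]
    congr 2
    exact Finset.prod_congr rfl fun j hj => by rw [if_neg (Finset.ne_of_mem_erase hj)]
  refine (integrable_finset_sum univ fun i _ => h1 i).mono'
    (V_meas.pow_const q).aestronglyMeasurable (Filter.Eventually.of_forall fun x => ?_)
  rw [Real.norm_of_nonneg (Real.rpow_nonneg (V_nonneg x) q)]
  unfold V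
  rcases chi_cases x with h | h
  · simp [h, Real.zero_rpow h0.ne']
  · simp only [h, mul_one]
    exact rpow_sum_le _ _ (fun i => F_nonneg _) h0 hq.le

/-- In every dimension `N ≥ 1`, with `Ω = ℝ^N`: a nonzero continuous compactly supported `u ≥ 0`
with `Δ u ≤ V u` in the sense of distributions, `V u` integrable and `(V⁺)^(1/2) ∈ L^p` for
every `p ∈ [1, 2)`. -/
theorem result (N : ℕ) (_hN : 1 ≤ N) :
    ∃ V u : EuclideanSpace ℝ (Fin N) → ℝ,
      Measurable V ∧ Integrable u ∧ Continuous u ∧ (∀ x, 0 ≤ u x) ∧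
      Integrable (fun x => V x * u x) ∧
      (∀ φ : EuclideanSpace ℝ (Fin N) → ℝ, ContDiff ℝ (⊤ : ℕ∞) φ → HasCompactSupport φ →
        (∀ x, 0 ≤ φ x) →
        ∫ x, u x * Laplacian.laplacian φ x ≤ ∫ x, V x * u x * φ x) ∧
      IsCompact (tsupport u) ∧
      (∀ p : ℝ, 1 ≤ p → p < 2 → MemLp (fun x => √(max (V x) 0)) (ENNReal.ofReal p) volume) ∧
      u ≠ 0 := by
  have hVu : Continuous fun x : E N => V x * u x := by
    simp_rw [Vu_eq]
    have := H_cont; have := fun i : Fin N => (P_diff i).continuous
    fun_prop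
  refine ⟨V, u, V_meas, u_cont.integrable_of_hasCompactSupport u_supp, u_cont,
    fun x => Finset.prod_nonneg fun _ _ => f_nonneg _,
    hVu.integrable_of_hasCompactSupport u_supp.mul_left, fun φ hφ hs h0 => ?_, u_supp,
    fun p h1 h2 => ?_, fun h => ?_⟩
  · have hφ2 : ContDiff ℝ 2 φ := contDiff_infty.1 hφ 2
    rw [InnerProductSpace.laplacian_eq_iteratedFDeriv_orthonormalBasis φ
      (EuclideanSpace.basisFun (Fin N) ℝ)]
    simp only [EuclideanSpace.basisFun_apply, Finset.mul_sum]
    rw [integral_finset_sum _ fun i _ => (ibp2 i hφ2 hs).1]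
    simp_rw [fun i => (ibp2 i hφ2 hs).2]
    have hc := hφ.continuous
    have hP := fun i : Fin N => (P_diff i).continuous
    have hi : ∀ i : Fin N, Integrable fun x : E N => f2 (x i) * P i x * φ x := fun i =>
      Continuous.integrable_of_hasCompactSupport (by have := f2_cont; fun_prop) hs.mul_left
    rw [← integral_finset_sum _ fun i _ => hi i]
    refine integral_mono (integrable_finset_sum _ fun i _ => hi i)
      ((hVu.mul hc).integrable_of_hasCompactSupport hs.mul_left) fun x => ?_
    simp only [Vu_eq, Finset.sum_mul]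
    exact Finset.sum_le_sum fun i _ => mul_le_mul_of_nonneg_right
      (mul_le_mul_of_nonneg_right (f2_le _) (P_nonneg i x)) (h0 x)
  · have hm : Measurable fun x : E N => √(max (V x) 0) := (V_meas.max measurable_const).sqrt
    rw [← integrable_norm_rpow_iff hm.aestronglyMeasurable (by simp; linarith) (by simp),
      ENNReal.toReal_ofReal (by linarith)]
    refine (V_int (N := N) (q := p / 2) (by linarith) (by linarith)).congr
      (Filter.Eventually.of_forall fun x => ?_)
    simp only
    rw [max_eq_left (V_nonneg x), Real.norm_of_nonneg (Real.sqrt_nonneg _), Real.sqrt_eq_rpow,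
      ← Real.rpow_mul (V_nonneg x)]
    congr 1; ring
  · have h1 := congrFun h (WithLp.toLp 2 fun _ => 1 / 2)
    have h2 : 0 < f (1 / 2) := by
      unfold f
      rw [show (1 : ℝ) - 1 / 2 = 1 / 2 by norm_num]
      exact mul_pos w_half w_half
    have h3 : 0 < u (N := N) (WithLp.toLp 2 fun _ => 1 / 2) := Finset.prod_pos fun _ _ => h2
    rw [h1] at h3
    simp at h3

end
end Pool.Agent.Results.MP_1d8377_an.Counterexample
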